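import Mathlib
import Pool.Agent.KS6_65.CL.Main

/-!
# The regular conjugate locus need not be dense: all dimensions `n ≥ 4`, all ranks `r ≥ 2 n / 3`

The definitions `V`, `IteratedBracket`, `IsSubRiemannian`, `Ham`, `IsTrajectory`, `IsExp`, `Conj` and
`Regular` are in `Pool.Agent.KS6_65.CL.Defs`.

The sub-Riemannian manifolds are the products of `a ≥ 1` Heisenberg groups and a Euclidean space
`ℝ^b`, with `a + b ≥ 2`, of dimension `3 a + b` and rank `2 a + b`. The covectors which annihilate the
distribution of one of the Heisenberg factors are conjugate, with all their multiples; and there is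
an open set of covectors which meets the conjugate locus only in such covectors.
-/

set_option autoImplicit false

open Set

namespace Pool.Agent.Results.MP_f98bae_gt.EveryDimension

open Pool.Agent.KS6_65.CL

/-- For all `n ≥ 4` and `r < n` with `2 n ≤ 3 r` (for instance `r = n - 1`) there is a
sub-Riemannian structure of rank `r` on the space `ℝ^n` (with coordinates indexed by a type `ι` with
`n` elements and with an orthonormal frame indexed by a type `κ` with `r` elements), with an
exponential map `e` at the origin which is defined on the whole cotangent space, such that the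
conjugate locus is not empty, the regular conjugate locus is not empty, and the regular conjugate
locus is not dense in the conjugate locus. -/
theorem result (n r : ℕ) (hn : 4 ≤ n) (hr : r < n) (h : 2 * n ≤ 3 * r) :
    ∃ (ι κ : Type) (_ : Fintype ι) (_ : Fintype κ) (X : κ → V ι → V ι) (e : V ι → V ι),
      Fintype.card ι = n ∧ Fintype.card κ = r ∧ IsSubRiemannian X ∧ IsExp X 0 e ∧
      (Conj X 0 e).Nonempty ∧ (Regular X 0 e).Nonempty ∧
      ¬ Conj X 0 e ⊆ closure (Regular X 0 e) := by
  have ha : 1 ≤ n - r := by omega
  have hab : 2 ≤ (n - r) + (3 * r - 2 * n) := by omega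
  refine ⟨Cd (n - r) (3 * r - 2 * n), Fr (n - r) (3 * r - 2 * n), inferInstance, inferInstance,
    frame _ _, expo _ _, ?_, ?_, isSubRiemannian_frame, isExp_expo, (not_dense ha hab).1,
    regular_nonempty ha, (not_dense ha hab).2⟩
  · simp only [Fintype.card_sum, Fintype.card_fin]
    omega
  · simp only [Fintype.card_sum, Fintype.card_fin]
    omega

end Pool.Agent.Results.MP_f98bae_gt.EveryDimension
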